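import Mathlib
import Pool.Graph.R_seed8.H234R3.Defs

/-!
A maximum principle for functions with positive definite Hessian outside of a countable closed
set, in coordinates, dimension at least two.
-/

set_option autoImplicit false
set_option linter.unusedSectionVars false

open scoped ContDiff Topology RealInnerProductSpace
open Module Metric Set Filter
open Pool.Agent.H234R3 (dd der)

namespace Pool.Agent.KS6_64.Cvx

/-- A function on the line with nonnegative derivative at `0` and positive second derivative at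
`0` is larger than its value at `0` to the right of `0`. -/
lemma eventually_lt {G : ℝ → ℝ} (hd : ∀ᶠ t in 𝓝 (0:ℝ), DifferentiableAt ℝ G t)
    (h0 : 0 ≤ deriv G 0) (h2 : 0 < deriv (deriv G) 0) : ∀ᶠ t in 𝓝[>] (0:ℝ), G 0 < G t := by
  have hdd : HasDerivAt (deriv G) (deriv (deriv G) 0) 0 :=
    (differentiableAt_of_deriv_ne_zero h2.ne').hasDerivAt
  have hs : ∀ᶠ t in 𝓝[>] (0:ℝ), 0 < slope (deriv G) 0 t := by
    have := (hasDerivAt_iff_tendsto_slope.1 hdd).eventually (lt_mem_nhds h2)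
    exact this.filter_mono (nhdsWithin_mono _ (fun t ht => ne_of_gt ht))
  have hpos : ∀ᶠ t in 𝓝[>] (0:ℝ), 0 < deriv G t := by
    filter_upwards [hs, self_mem_nhdsWithin] with t ht ht0
    rw [slope_def_field, sub_zero] at ht
    have ht0' : (0:ℝ) < t := ht0
    have := (div_pos_iff_of_pos_right ht0').1 ht
    linarith
  obtain ⟨e1, he1, h1⟩ := (mem_nhdsGT_iff_exists_Ioo_subset).1 hpos
  obtain ⟨e2, he2, h3⟩ := Metric.mem_nhds_iff.1 hd
  have he1' : (0:ℝ) < e1 := he1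
  have hmem : Ioo (0:ℝ) (min e1 e2) ∈ 𝓝[>] (0:ℝ) := Ioo_mem_nhdsGT (lt_min he1' he2)
  filter_upwards [hmem] with t ht
  have hdiff : ∀ x ∈ Icc 0 t, DifferentiableAt ℝ G x := by
    intro x hx
    apply h3
    rw [mem_ball, Real.dist_eq, sub_zero, abs_of_nonneg hx.1]
    exact lt_of_le_of_lt hx.2 (lt_of_lt_of_le ht.2 (min_le_right _ _))
  have hmono : StrictMonoOn G (Icc 0 t) := by
    apply strictMonoOn_of_deriv_pos (convex_Icc 0 t)
    · exact fun x hx => (hdiff x hx).continuousAt.continuousWithinAt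
    · intro x hx
      rw [interior_Icc] at hx
      exact h1 ⟨hx.1, hx.2.trans (lt_of_lt_of_le ht.2 (min_le_left _ _))⟩
  exact hmono (left_mem_Icc.2 ht.1.le) (right_mem_Icc.2 ht.1.le) ht.1

variable {E : Type*} [NormedAddCommGroup E] [InnerProductSpace ℝ E]

lemma hasDerivAt_curve (a v w : E) (t : ℝ) :
    HasDerivAt (fun t : ℝ => a + t • v - (t ^ 2 / 2) • w) (v - t • w) t := by
  have h1 : HasDerivAt (fun t : ℝ => a + t • v) v t := by
    simpa using ((hasDerivAt_id t).smul_const v).const_add a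
  have h2 : HasDerivAt (fun t : ℝ => t ^ 2 / 2) t t := by
    have := (hasDerivAt_pow 2 t).div_const 2
    simpa using this
  exact h1.sub (h2.smul_const w)

lemma curve_deriv {F : E → ℝ} {a : E} (hF : ContDiffAt ℝ 2 F a) (v w : E) :
    (∀ᶠ t in 𝓝 (0:ℝ), HasDerivAt (fun t : ℝ => F (a + t • v - (t ^ 2 / 2) • w))
      (fderiv ℝ F (a + t • v - (t ^ 2 / 2) • w) (v - t • w)) t) ∧
    HasDerivAt (fun t : ℝ => fderiv ℝ F (a + t • v - (t ^ 2 / 2) • w) (v - t • w))
      (fderiv ℝ (fderiv ℝ F) a v v - fderiv ℝ F a w) 0 := by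
  have hc : ContinuousAt (fun t : ℝ => a + t • v - (t ^ 2 / 2) • w) 0 :=
    (hasDerivAt_curve a v w 0).continuousAt
  have h0 : a + (0:ℝ) • v - ((0:ℝ) ^ 2 / 2) • w = a := by simp
  constructor
  · have h1 : ∀ᶠ x in 𝓝 a, DifferentiableAt ℝ F x := by
      filter_upwards [hF.eventually (by simp)] with y hy
      exact hy.differentiableAt (by simp)
    have h2 : ∀ᶠ t in 𝓝 (0:ℝ), DifferentiableAt ℝ F (a + t • v - (t ^ 2 / 2) • w) := by
      apply hc.eventually
      simpa using h1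
    filter_upwards [h2] with t ht
    exact ht.hasFDerivAt.comp_hasDerivAt t (hasDerivAt_curve a v w t)
  · have hd : DifferentiableAt ℝ (fderiv ℝ F) a :=
      (hF.fderiv_right (m := 1) (by norm_num)).differentiableAt (by simp)
    have h3 : HasDerivAt (fun t : ℝ => fderiv ℝ F (a + t • v - (t ^ 2 / 2) • w))
        (fderiv ℝ (fderiv ℝ F) a v) 0 := by
      have h4 : HasFDerivAt (fderiv ℝ F) (fderiv ℝ (fderiv ℝ F) a)
          (a + (0:ℝ) • v - ((0:ℝ) ^ 2 / 2) • w) := by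
        rw [h0]
        exact hd.hasFDerivAt
      refine (h4.comp_hasDerivAt (0:ℝ) (hasDerivAt_curve a v w 0)).congr_deriv ?_
      rw [zero_smul, sub_zero]
    have h5 : HasDerivAt (fun t : ℝ => v - t • w) (-w) 0 := by
      simpa using ((hasDerivAt_id (0:ℝ)).smul_const w).const_sub v
    have h6 := h3.clm_apply h5
    simp only [zero_smul, sub_zero, map_neg] at h6
    simpa [sub_eq_add_neg] using h6

lemma dd_eq {F : E → ℝ} {a : E} (hF : ContDiffAt ℝ 2 F a) (v : E) :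
    dd F a v = fderiv ℝ (fderiv ℝ F) a v v := by
  obtain ⟨h1, h2⟩ := curve_deriv hF v 0
  simp only [smul_zero, sub_zero, map_zero] at h1 h2
  unfold dd
  have h3 : (deriv fun t : ℝ => F (a + t • v)) =ᶠ[𝓝 0] fun t : ℝ => fderiv ℝ F (a + t • v) v := by
    filter_upwards [h1] with t ht
    exact ht.deriv
  rw [h3.deriv_eq]
  exact h2.deriv

/-- The touching principle: if the Hessians of two functions are positive at `a` in a direction
`v` which is tangent to the level set of the first, then both functions have larger values at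
points arbitrarily close to `a`. -/
lemma touch {F P : E → ℝ} {a : E} (hF : ContDiffAt ℝ 2 F a) (hP : ContDiffAt ℝ 2 P a) {v w : E}
    (hv : fderiv ℝ F a v = 0) (h1 : 0 < dd F a v - der F a w) (h2 : 0 < dd P a v - der P a w) :
    ∃ᶠ x in 𝓝 a, F a < F x ∧ P a < P x := by
  wlog hs : 0 ≤ fderiv ℝ P a v generalizing v with H
  · apply H (v := -v)
    · rw [map_neg, hv, neg_zero]
    · rw [dd_eq hF] at h1 ⊢
      simpa using h1
    · rw [dd_eq hP] at h2 ⊢
      simpa using h2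
    · rw [map_neg]
      linarith
  have key : ∀ Q : E → ℝ, ContDiffAt ℝ 2 Q a → 0 ≤ fderiv ℝ Q a v →
      0 < dd Q a v - der Q a w →
      ∀ᶠ t in 𝓝[>] (0:ℝ), Q a < Q (a + t • v - (t ^ 2 / 2) • w) := by
    intro Q hQ h3 h4
    obtain ⟨h5, h6⟩ := curve_deriv hQ v w
    have h7 : deriv (fun t : ℝ => Q (a + t • v - (t ^ 2 / 2) • w)) =ᶠ[𝓝 0]
        fun t : ℝ => fderiv ℝ Q (a + t • v - (t ^ 2 / 2) • w) (v - t • w) := by
      filter_upwards [h5] with t ht
      exact ht.deriv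
    have h8 := eventually_lt (G := fun t : ℝ => Q (a + t • v - (t ^ 2 / 2) • w))
      (by filter_upwards [h5] with t ht using ht.differentiableAt)
      (by
        rw [h7.eq_of_nhds]
        simpa using h3)
      (by
        rw [h7.deriv_eq, h6.deriv, ← dd_eq hQ]
        exact h4)
    simpa using h8
  have h3 := (key F hF hv.ge h1).and (key P hP hs h2)
  have h4 : ∃ᶠ t in 𝓝[>] (0:ℝ), F a < F (a + t • v - (t ^ 2 / 2) • w) ∧
      P a < P (a + t • v - (t ^ 2 / 2) • w) := h3.frequently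
  have hc : Tendsto (fun t : ℝ => a + t • v - (t ^ 2 / 2) • w) (𝓝[>] (0:ℝ)) (𝓝 a) := by
    have := (hasDerivAt_curve a v w 0).continuousAt.tendsto
    simp only [zero_smul, add_zero, ne_eq, OfNat.ofNat_ne_zero, not_false_eq_true, zero_pow,
      zero_div, sub_zero] at this
    exact this.mono_left nhdsWithin_le_nhds
  exact hc.frequently h4

/-- The comparison functions. -/
noncomputable def psi (k : E) (L : ℝ) (ξ x : E) : ℝ := ⟪ξ, x - k⟫ + L * ‖x - k‖ ^ 2

lemma contDiff_psi (k : E) (L : ℝ) (ξ : E) : ContDiff ℝ 2 (psi k L ξ) := by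
  unfold psi
  have h1 : ContDiff ℝ 2 fun x : E => x - k := contDiff_id.sub contDiff_const
  exact (contDiff_const.inner ℝ h1).add (contDiff_const.mul (h1.norm_sq ℝ))

lemma continuous_psi (k : E) (L : ℝ) (ξ : E) : Continuous (psi k L ξ) :=
  (contDiff_psi k L ξ).continuous

lemma fderiv_psi (k : E) (L : ℝ) (ξ x v : E) :
    fderiv ℝ (psi k L ξ) x v = ⟪ξ, v⟫ + L * (2 * ⟪x - k, v⟫) := by
  have h1 : HasFDerivAt (fun x : E => x - k) (ContinuousLinearMap.id ℝ E) x :=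
    (hasFDerivAt_id x).sub_const k
  have h2 := (hasFDerivAt_const ξ x).inner ℝ h1
  have h3 := (h1.norm_sq).const_mul L
  have h4 := h2.add h3
  have h5 : fderiv ℝ (psi k L ξ) x = _ := h4.fderiv
  rw [h5]
  simp [two_mul, mul_add, inner_sub_left]

lemma dd_psi (k : E) (L : ℝ) (ξ x v : E) : dd (psi k L ξ) x v = 2 * L * ‖v‖ ^ 2 := by
  unfold dd
  have h1 : (deriv fun t : ℝ => psi k L ξ (x + t • v)) =
      fun t : ℝ => ⟪ξ, v⟫ + L * (2 * (⟪x - k, v⟫ + t * ‖v‖ ^ 2)) := by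
    funext t
    have h2 : HasDerivAt (fun t : ℝ => x + t • v) v t := by
      simpa using ((hasDerivAt_id t).smul_const v).const_add x
    have h3 := ((contDiff_psi k L ξ).differentiable (by simp) (x + t • v)).hasFDerivAt.comp_hasDerivAt
      t h2
    have h4 : deriv (fun t : ℝ => psi k L ξ (x + t • v)) t = _ := h3.deriv
    rw [h4, fderiv_psi]
    have h5 : x + t • v - k = (x - k) + t • v := by abel
    rw [h5, inner_add_left, real_inner_smul_left, real_inner_self_eq_norm_sq]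
  rw [h1]
  have h6 : HasDerivAt (fun t : ℝ => ⟪ξ, v⟫ + L * (2 * (⟪x - k, v⟫ + t * ‖v‖ ^ 2)))
      (L * (2 * (‖v‖ ^ 2))) 0 := by
    have := ((((hasDerivAt_id (0:ℝ)).mul_const (‖v‖ ^ 2)).const_add ⟪x - k, v⟫).const_mul
      2).const_mul L |>.const_add ⟪ξ, v⟫
    simpa using this
  rw [h6.deriv]
  ring

lemma psi_sub (k : E) (L : ℝ) (ξ x q : E) :
    psi k L ξ x - psi k L ξ q = ⟪ξ + (2 * L) • (q - k), x - q⟫ + L * ‖x - q‖ ^ 2 := by
  unfold psi
  have h1 : x - k = (x - q) + (q - k) := by abel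
  rw [h1, norm_add_sq_real, inner_add_right, inner_add_left, real_inner_smul_left,
    real_inner_comm (q - k) (x - q)]
  ring

lemma psi_sub_psi (k : E) (L : ℝ) (ξ η x : E) :
    psi k L ξ x - psi k L η x = ⟪ξ - η, x - k⟫ := by
  unfold psi
  rw [inner_sub_left]
  ring

/-- The data of the local maximum principle: a function with positive definite Hessian on the
complement of the countable closed set `K` in the ball with centre `k` and radius `r`. -/
structure Loc (F : E → ℝ) (K : Set E) (k : E) (r C L : ℝ) : Prop where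
  r0 : 0 < r
  C0 : 0 ≤ C
  cr : 4 * (C * r) ≤ 1
  lam : C < L
  closed : IsClosed K
  countable : K.Countable
  smooth : ∀ x ∈ ball k r, x ∉ K → ContDiffAt ℝ 2 F x
  hess : ∀ x ∈ ball k r, x ∉ K → ∃ Γ : E → E, (∀ v, ‖Γ v‖ ≤ C * ‖v‖ ^ 2) ∧
    ∀ v, v ≠ 0 → 0 < dd F x v - der F x (Γ v)

/-- the points of the ball `B(q, ρ)` outside of `K` with values at least `c` -/
def Up (F : E → ℝ) (K : Set E) (q : E) (ρ c : ℝ) : Set E :=
  {x | x ∈ ball q ρ ∧ x ∉ K ∧ c ≤ F x}

variable {F : E → ℝ} {K : Set E} {k : E} {r C L : ℝ}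

lemma Loc.L0 (h : Loc F K k r C L) : 0 < L := lt_of_le_of_lt h.C0 h.lam

lemma Loc.touch (h : Loc F K k r C L) [FiniteDimensional ℝ E] (hdim : 2 ≤ finrank ℝ E) {a ξ : E}
    (ha : a ∈ ball k r) (haK : a ∉ K) (hξ : ‖ξ‖ < 2 * L * r + 1) :
    ∃ᶠ x in 𝓝 a, F a < F x ∧ psi k L ξ a < psi k L ξ x := by
  obtain ⟨Γ, hΓ, hpos⟩ := h.hess a ha haK
  obtain ⟨v, hv, hv0⟩ : ∃ v : E, fderiv ℝ F a v = 0 ∧ v ≠ 0 := by
    have h1 : finrank ℝ ℝ < finrank ℝ E := by
      rw [finrank_self]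
      omega
    obtain ⟨v, hv, hv0⟩ := Submodule.exists_mem_ne_zero_of_ne_bot
      (LinearMap.ker_ne_bot_of_finrank_lt (f := (fderiv ℝ F a : E →ₗ[ℝ] ℝ)) h1)
    exact ⟨v, by simpa using hv, hv0⟩
  refine Cvx.touch (h.smooth a ha haK) (contDiff_psi k L ξ).contDiffAt hv (hpos v hv0) ?_
  rw [dd_psi, der, fderiv_psi]
  have hn : 0 < ‖v‖ ^ 2 := by positivity
  have h1 := hΓ v
  have h2 : ⟪ξ, Γ v⟫ ≤ ‖ξ‖ * ‖Γ v‖ := real_inner_le_norm _ _
  have h3 : ⟪a - k, Γ v⟫ ≤ ‖a - k‖ * ‖Γ v‖ := real_inner_le_norm _ _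
  have h4 : ‖a - k‖ < r := by
    rw [mem_ball, dist_eq_norm] at ha
    exact ha
  have hL := h.L0
  have h5 : ‖ξ‖ * ‖Γ v‖ ≤ (2 * L * r + 1) * (C * ‖v‖ ^ 2) := by
    have := h.r0
    exact mul_le_mul hξ.le h1 (norm_nonneg _) (by positivity)
  have h6 : ‖a - k‖ * ‖Γ v‖ ≤ r * (C * ‖v‖ ^ 2) := by
    gcongr
    exact h.r0.le
  have h7 : L * (2 * ⟪a - k, Γ v⟫) ≤ L * (2 * (r * (C * ‖v‖ ^ 2))) := by
    gcongr
    exact h3.trans h6
  have h8 : (2 * L * r + 1) * (C * ‖v‖ ^ 2) + L * (2 * (r * (C * ‖v‖ ^ 2))) <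
      2 * L * ‖v‖ ^ 2 := by
    have h9 : (2 * L * r + 1) * (C * ‖v‖ ^ 2) + L * (2 * (r * (C * ‖v‖ ^ 2))) =
      (L * (4 * (C * r)) + C) * ‖v‖ ^ 2 := by ring
    rw [h9]
    have h10 : L * (4 * (C * r)) ≤ L * 1 := by
      gcongr
      exact h.cr
    have h11 := h.lam
    nlinarith
  linarith

lemma Loc.freq (h : Loc F K k r C L) [FiniteDimensional ℝ E] (hdim : 2 ≤ finrank ℝ E) {a : E}
    (ha : a ∈ ball k r) (haK : a ∉ K) : ∃ᶠ x in 𝓝 a, F a < F x := by
  have h1 : ‖(0 : E)‖ < 2 * L * r + 1 := by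
    have := h.L0
    have := h.r0
    rw [norm_zero]
    positivity
  exact (h.touch hdim ha haK h1).mono fun x hx => hx.1

lemma Loc.isOpen (h : Loc F K k r C L) (q : E) (ρ : ℝ) : IsOpen (ball q ρ \ K) :=
  isOpen_ball.sdiff h.closed

/-- at a point outside of `K` in the closure of the set where `F ≥ c`, one has `F ≥ c` -/
lemma Loc.le_of_mem_closure (h : Loc F K k r C L) {q a : E} {ρ c : ℝ}
    (ha : a ∈ ball k r) (haK : a ∉ K) (hc : a ∈ closure (Up F K q ρ c)) : c ≤ F a := by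
  by_contra hlt
  rw [not_le] at hlt
  have h1 : ∀ᶠ x in 𝓝 a, F x < c := (h.smooth a ha haK).continuousAt.eventually (gt_mem_nhds hlt)
  obtain ⟨x, hx, hx'⟩ := mem_closure_iff_nhds.1 hc _ h1
  exact absurd hx'.2.2 (not_le.2 hx)

lemma Up_mono {q q' : E} {ρ ρ' c : ℝ} (hb : ball q ρ ⊆ ball q' ρ') :
    Up F K q ρ c ⊆ Up F K q' ρ' c := fun _ hx => ⟨hb hx.1, hx.2⟩

/-- Vertices. -/
def Vtx (F : E → ℝ) (K : Set E) (k : E) (r L : ℝ) (q : E) : Prop :=
  q ∈ K ∧ q ∈ ball k r ∧ ∃ c, q ∈ closure (Up F K k r c) ∧ ∃ ξ : E, ‖ξ‖ < 2 * L * r + 1 ∧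
    ∃ δ : ℝ, 0 < δ ∧ ∃ s : ℝ, 0 < s ∧ ∀ x ∈ ball q s, x ∈ ball k r → x ∉ K → c ≤ F x →
      psi k L ξ x + δ * ‖x - q‖ ≤ psi k L ξ q

variable [FiniteDimensional ℝ E]

lemma Loc.vertex (h : Loc F K k r C L) (hdim : 2 ≤ finrank ℝ E) {q : E} {ρ c : ℝ}
    (hb : ball q ρ ⊆ ball k r) {O : Set E} (hO : IsOpen O) (hne : O.Nonempty)
    (hOb : ∀ ξ ∈ O, ‖ξ‖ < 2 * L * r + 1) (hA : (Up F K q ρ c).Nonempty)
    (hmax : ∀ ξ ∈ O, ∀ a ∈ closure (Up F K q ρ c),
      (∀ x ∈ closure (Up F K q ρ c), psi k L ξ x ≤ psi k L ξ a) → a ∈ ball q ρ ∧ a ≠ q) :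
    ∃ q', Vtx F K k r L q' ∧ q' ≠ q ∧ q' ∈ ball q ρ := by
  set A := closure (Up F K q ρ c) with hAdef
  have hAc : IsCompact A :=
    (isCompact_closedBall q ρ).of_isClosed_subset isClosed_closure
      (closure_minimal (fun x hx => ball_subset_closedBall hx.1) isClosed_closedBall)
  have hAn : A.Nonempty := hA.closure
  -- the maximum points are in `K`
  have h1 : ∀ ξ ∈ O, ∃ a ∈ A ∩ K, a ∈ ball q ρ ∧ a ≠ q ∧ ∀ x ∈ A, psi k L ξ x ≤ psi k L ξ a := by
    intro ξ hξ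
    obtain ⟨a, ha, hamax⟩ := hAc.exists_isMaxOn hAn (continuous_psi k L ξ).continuousOn
    have hamax' : ∀ x ∈ A, psi k L ξ x ≤ psi k L ξ a := fun x hx => hamax hx
    obtain ⟨hab, haq⟩ := hmax ξ hξ a ha hamax'
    refine ⟨a, ⟨ha, ?_⟩, hab, haq, hamax'⟩
    by_contra haK
    have h2 := h.touch hdim (hb hab) haK (hOb ξ hξ)
    have h3 : ∀ᶠ x in 𝓝 a, x ∈ ball q ρ \ K := (h.isOpen q ρ).mem_nhds ⟨hab, haK⟩
    obtain ⟨x, ⟨hx1, hx2⟩, hx3, hx4⟩ := (h2.and_eventually h3).exists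
    have h4 : x ∈ A := subset_closure
      ⟨hx3, hx4, (h.le_of_mem_closure (hb hab) haK ha).trans hx1.le⟩
    exact absurd (hamax' x h4) (not_le.2 hx2)
  -- Baire
  let Z : E → Set E := fun a => {ξ | ∀ x ∈ A, psi k L ξ x ≤ psi k L ξ a}
  have hZc : ∀ a, IsClosed (Z a) := by
    intro a
    have : Z a = ⋂ x ∈ A, {ξ | psi k L ξ x ≤ psi k L ξ a} := by
      ext ξ
      simp [Z]
    rw [this]
    refine isClosed_biInter fun x _ => isClosed_le ?_ ?_ <;>
    · unfold psi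
      fun_prop
  let S : Set E := {a | a ∈ A ∩ K ∧ a ∈ ball q ρ ∧ a ≠ q}
  have hS : S.Countable := h.countable.mono fun a ha => ha.1.2
  have hcov : O ⊆ ⋃ a ∈ S, Z a := by
    intro ξ hξ
    obtain ⟨a, ha1, ha2, ha3, ha4⟩ := h1 ξ hξ
    exact mem_biUnion (show a ∈ S from ⟨ha1, ha2, ha3⟩) ha4
  obtain ⟨a, haS, ξ1, hξ1⟩ : ∃ a ∈ S, (O ∩ interior (Z a)).Nonempty := by
    have hU : ⋃ a ∈ S, Z a ∪ Oᶜ = univ ∨ S = ∅ := by
      rcases S.eq_empty_or_nonempty with hem | ⟨a0, ha0⟩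
      · exact Or.inr hem
      · left
        apply eq_univ_of_forall
        intro ξ
        by_cases hξ : ξ ∈ O
        · obtain ⟨a, ha, ha'⟩ := mem_iUnion₂.1 (hcov hξ)
          exact mem_iUnion₂.2 ⟨a, ha, Or.inl ha'⟩
        · exact mem_iUnion₂.2 ⟨a0, ha0, Or.inr hξ⟩
    rcases hU with hU | hU
    · have hd := dense_biUnion_interior_of_closed (f := fun a => Z a ∪ Oᶜ)
        (fun a _ => (hZc a).union hO.isClosed_compl) hS hU
      obtain ⟨ξ, hξO, hξ⟩ := hd.inter_open_nonempty O hO hne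
      obtain ⟨a, ha, ha'⟩ := mem_iUnion₂.1 hξ
      refine ⟨a, ha, ξ, hξO, ?_⟩
      have h5 : O ∩ interior (Z a ∪ Oᶜ) ⊆ Z a := by
        rintro η ⟨h6, h7⟩
        rcases interior_subset h7 with h8 | h8
        · exact h8
        · exact absurd h6 h8
      exact interior_maximal h5 (hO.inter isOpen_interior) ⟨hξO, ha'⟩
    · obtain ⟨ξ, hξ⟩ := hne
      have := hcov hξ
      rw [hU] at this
      simp at this
  obtain ⟨ε, hε, hball⟩ := Metric.mem_nhds_iff.1 (isOpen_interior.mem_nhds hξ1.2)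
  have hball' : ball ξ1 ε ⊆ Z a := hball.trans interior_subset
  have hvx : ∀ x ∈ A, psi k L ξ1 x + ε / 2 * ‖x - a‖ ≤ psi k L ξ1 a := by
    intro x hx
    rcases eq_or_ne x a with rfl | hxa
    · simp
    have hn : 0 < ‖x - a‖ := norm_pos_iff.2 (sub_ne_zero.2 hxa)
    set u : E := (ε / 2 * ‖x - a‖⁻¹) • (x - a) with hu
    have hun : ‖u‖ = ε / 2 := by
      rw [hu, norm_smul, Real.norm_eq_abs, abs_of_pos (by positivity)]
      field_simp
    have h6 : ξ1 + u ∈ Z a := hball' (by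
      rw [mem_ball, dist_eq_norm, add_sub_cancel_left, hun]
      linarith)
    have h7 : psi k L (ξ1 + u) x ≤ psi k L (ξ1 + u) a := h6 x hx
    have h8 := psi_sub k L (ξ1 + u) x a
    have h9 := psi_sub k L ξ1 x a
    have h10 : ⟪ξ1 + u + (2 * L) • (a - k), x - a⟫ =
        ⟪ξ1 + (2 * L) • (a - k), x - a⟫ + ε / 2 * ‖x - a‖ := by
      have h11 : ξ1 + u + (2 * L) • (a - k) = (ξ1 + (2 * L) • (a - k)) + u := by abel
      rw [h11, inner_add_left, hu, real_inner_smul_left, real_inner_self_eq_norm_sq]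
      field_simp
    linarith
  refine ⟨a, ⟨haS.1.2, hb haS.2.1, c, closure_mono (Up_mono hb) haS.1.1, ξ1, hOb ξ1 hξ1.1, ε / 2,
    by positivity, ρ - dist a q, ?_, ?_⟩, haS.2.2, haS.2.1⟩
  · have := haS.2.1
    rw [mem_ball] at this
    linarith
  · intro x hx hx2 hx3 hx4
    apply hvx
    apply subset_closure
    refine ⟨?_, hx3, hx4⟩
    rw [mem_ball] at hx ⊢
    have := dist_triangle x a q
    linarith

/-- a radius such that the sphere avoids `K` -/
lemma exists_radius (hK : K.Countable) (q : E) {ρ : ℝ} (hρ : 0 < ρ) :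
    ∃ ρ' : ℝ, 0 < ρ' ∧ ρ' < ρ ∧ ∀ x ∈ K, dist x q ≠ ρ' := by
  have h1 : ((fun x => dist x q) '' K).Countable := hK.image _
  have h2 : ¬ (Ioo 0 ρ).Countable := by
    intro hc
    have := hc.le_aleph0
    rw [Cardinal.mk_Ioo_real hρ] at this
    exact absurd this (not_le.2 Cardinal.aleph0_lt_continuum)
  obtain ⟨ρ', h3, h4⟩ : ∃ ρ' ∈ Ioo 0 ρ, ρ' ∉ (fun x => dist x q) '' K := by
    by_contra hcon
    push Not at hcon
    exact h2 (h1.mono hcon)
  exact ⟨ρ', h3.1, h3.2, fun x hx h5 => h4 ⟨x, hx, h5⟩⟩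

/-- near a point where `F` is at the top there is a vertex -/
lemma Loc.top (h : Loc F K k r C L) (hdim : 2 ≤ finrank ℝ E) {q : E} {ρ : ℝ} (hρ : 0 < ρ)
    (hb : ball q ρ ⊆ ball k r) {T : Set ℝ} (t1 : ∀ x ∈ ball q ρ, x ∉ K → F x ∈ T)
    (t2 : ∀ c ∈ T, q ∈ closure (Up F K k r c)) :
    ∃ q', Vtx F K k r L q' ∧ q' ≠ q ∧ q' ∈ ball q ρ := by
  have hL := h.L0
  have hr := h.r0
  have hq : q ∈ ball k r := hb (mem_ball_self hρ)
  obtain ⟨ρ', hρ0, hρ1, hρK⟩ := exists_radius h.countable q hρ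
  have hnt : Nontrivial E := by
    have : 0 < finrank ℝ E := by omega
    exact Module.finrank_pos_iff.1 this
  have hS : ∀ x ∈ sphere q ρ', x ∈ ball q ρ ∧ x ∉ K := by
    intro x hx
    rw [mem_sphere] at hx
    refine ⟨by rw [mem_ball]; linarith, fun hxK => hρK x hxK hx⟩
  have hcont : ContinuousOn F (sphere q ρ') := fun x hx =>
    (h.smooth x (hb (hS x hx).1) (hS x hx).2).continuousAt.continuousWithinAt
  obtain ⟨x0, hx0, hmax⟩ := (isCompact_sphere q ρ').exists_isMaxOn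
    (NormedSpace.sphere_nonempty.2 hρ0.le) hcont
  obtain ⟨x1, hx1F, hx1b, hx1K⟩ : ∃ x1, F x0 < F x1 ∧ x1 ∈ ball q ρ ∧ x1 ∉ K := by
    have h1 := h.freq hdim (hb (hS x0 hx0).1) (hS x0 hx0).2
    have h2 : ∀ᶠ x in 𝓝 x0, x ∈ ball q ρ \ K := (h.isOpen q ρ).mem_nhds (hS x0 hx0)
    obtain ⟨x, hx, hx'⟩ := (h1.and_eventually h2).exists
    exact ⟨x, hx, hx'.1, hx'.2⟩
  set c := F x1 with hc
  have hcq : q ∈ closure (Up F K q ρ' c) := by
    have h1 := t2 c (t1 x1 hx1b hx1K)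
    rw [mem_closure_iff_nhds] at h1 ⊢
    intro W hW
    obtain ⟨x, hx, hx'⟩ := h1 (W ∩ ball q ρ') (inter_mem hW (ball_mem_nhds q hρ0))
    exact ⟨x, hx.1, hx.2, hx'.2⟩
  have hsub : closure (Up F K q ρ' c) ⊆ ball q ρ' := by
    intro a ha
    have h1 : a ∈ closedBall q ρ' :=
      closure_minimal (fun x hx => ball_subset_closedBall hx.1) isClosed_closedBall ha
    rcases (mem_closedBall.1 h1).lt_or_eq with h2 | h2
    · exact h2
    · exfalso
      have h3 := hS a h2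
      have h4 := h.le_of_mem_closure (hb h3.1) h3.2 ha
      have h5 : F a ≤ F x0 := hmax h2
      linarith
  -- a point of the set different from `q`
  obtain ⟨x2, hx2, hx2q⟩ : ∃ x2 ∈ Up F K q ρ' c, x2 ≠ q := by
    obtain ⟨x, hx⟩ : (Up F K q ρ' c).Nonempty := closure_nonempty_iff.1 ⟨q, hcq⟩
    rcases eq_or_ne x q with rfl | hne
    · have h1 := h.freq hdim hq hx.2.1
      have h2 : ∀ᶠ y in 𝓝 x, y ∈ ball x ρ' \ K := (h.isOpen x ρ').mem_nhds ⟨hx.1, hx.2.1⟩
      obtain ⟨y, hy, hy'⟩ := (h1.and_eventually h2).exists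
      refine ⟨y, ⟨hy'.1, hy'.2, hx.2.2.trans hy.le⟩, ?_⟩
      rintro rfl
      exact lt_irrefl _ hy
    · exact ⟨x, hx, hne⟩
  have hn : 0 < ‖x2 - q‖ := norm_pos_iff.2 (sub_ne_zero.2 hx2q)
  obtain ⟨q', h1, h2, h3⟩ := h.vertex hdim (q := q) (ρ := ρ') (c := c)
    ((ball_subset_ball hρ1.le).trans hb)
    (O := ball (-((2 * L) • (q - k))) (min 1 (L * ‖x2 - q‖))) isOpen_ball
    (nonempty_ball.2 (lt_min one_pos (by positivity)))
    (by
      intro ξ hξ
      rw [mem_ball, dist_eq_norm, sub_neg_eq_add] at hξ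
      have h4 : ‖ξ + (2 * L) • (q - k)‖ < 1 := lt_of_lt_of_le hξ (min_le_left _ _)
      have h5 : ‖ξ‖ ≤ ‖ξ + (2 * L) • (q - k)‖ + ‖(2 * L) • (q - k)‖ := by
        have := norm_sub_le (ξ + (2 * L) • (q - k)) ((2 * L) • (q - k))
        rwa [add_sub_cancel_right] at this
      have h6 : ‖(2 * L) • (q - k)‖ ≤ 2 * L * r := by
        rw [norm_smul, Real.norm_eq_abs, abs_of_pos (by positivity)]
        gcongr
        rw [mem_ball, dist_eq_norm] at hq
        exact hq.le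
      linarith)
    ⟨x2, hx2⟩
    (by
      intro ξ hξ a ha hamax
      refine ⟨hsub ha, ?_⟩
      rintro rfl
      rw [mem_ball, dist_eq_norm, sub_neg_eq_add] at hξ
      have h4 := hamax x2 (subset_closure hx2)
      have h5 := psi_sub k L ξ x2 a
      have h6 : -(‖ξ + (2 * L) • (a - k)‖ * ‖x2 - a‖) ≤ ⟪ξ + (2 * L) • (a - k), x2 - a⟫ := by
        have := abs_real_inner_le_norm (ξ + (2 * L) • (a - k)) (x2 - a)
        exact (abs_le.1 this).1
      have h7 : ‖ξ + (2 * L) • (a - k)‖ * ‖x2 - a‖ < L * ‖x2 - a‖ * ‖x2 - a‖ := by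
        apply mul_lt_mul_of_pos_right _ hn
        exact lt_of_lt_of_le hξ (min_le_right _ _)
      nlinarith)
  exact ⟨q', h1, h2, ball_subset_ball hρ1.le h3⟩

/-- vertices accumulate at vertices -/
lemma Loc.accum (h : Loc F K k r C L) (hdim : 2 ≤ finrank ℝ E) {q : E} (hq : Vtx F K k r L q)
    {ρ : ℝ} (hρ : 0 < ρ) : ∃ q', Vtx F K k r L q' ∧ q' ≠ q ∧ q' ∈ ball q ρ := by
  obtain ⟨hqK, hqb, c0, hc0, ξ0, hξ0, δ, hδ, s, hs, hvx⟩ := hq
  have hr := h.r0
  -- a small radius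
  obtain ⟨ρ1, h1, h2, h3, h4⟩ : ∃ ρ1 : ℝ, 0 < ρ1 ∧ ρ1 ≤ ρ ∧ ρ1 ≤ s ∧ ball q ρ1 ⊆ ball k r := by
    rw [mem_ball] at hqb
    refine ⟨min (min ρ s) (r - dist q k), lt_min (lt_min hρ hs) (by linarith), ?_, ?_, ?_⟩
    · exact (min_le_left _ _).trans (min_le_left _ _)
    · exact (min_le_left _ _).trans (min_le_right _ _)
    · intro x hx
      rw [mem_ball] at hx ⊢
      have := dist_triangle x q k
      have := lt_of_lt_of_le hx (min_le_right _ _)
      linarith
  let T : Set ℝ := {c | q ∈ closure (Up F K k r c)}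
  by_cases hB : ∃ ρ2 : ℝ, 0 < ρ2 ∧ ρ2 ≤ ρ1 ∧ ∀ x ∈ ball q ρ2, x ∉ K → F x ∈ T
  · obtain ⟨ρ2, h5, h6, h7⟩ := hB
    obtain ⟨q', h8, h9, h10⟩ := h.top hdim h5 ((ball_subset_ball h6).trans h4) h7
      (fun c hc => hc)
    exact ⟨q', h8, h9, ball_subset_ball (h6.trans h2) h10⟩
  · push Not at hB
    -- a point near `q` with a value not attained at `q`
    have hcont : ∀ᶠ x in 𝓝 q, psi k L ξ0 q - δ * ρ1 / 4 < psi k L ξ0 x := by
      apply (continuous_psi k L ξ0).continuousAt.eventually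
      apply lt_mem_nhds
      have : 0 < δ * ρ1 / 4 := by positivity
      linarith
    obtain ⟨ρ3, h5, h6⟩ := Metric.mem_nhds_iff.1 hcont
    obtain ⟨x1, hx1, hx1K, hx1T⟩ := hB (min ρ3 ρ1) (lt_min h5 h1) (min_le_right _ _)
    have hx1' : psi k L ξ0 q - δ * ρ1 / 4 < psi k L ξ0 x1 :=
      h6 (ball_subset_ball (min_le_left _ _) hx1)
    have hx1b : x1 ∈ ball q ρ1 := ball_subset_ball (min_le_right _ _) hx1
    have hcc : c0 < F x1 := by
      by_contra hcon
      rw [not_lt] at hcon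
      apply hx1T
      refine closure_mono ?_ hc0
      intro x hx
      exact ⟨hx.1, hx.2.1, hcon.trans hx.2.2⟩
    have hA : ∀ a ∈ closure (Up F K q ρ1 (F x1)), psi k L ξ0 a + δ * ‖a - q‖ ≤ psi k L ξ0 q := by
      have hcl : IsClosed {a | psi k L ξ0 a + δ * ‖a - q‖ ≤ psi k L ξ0 q} := by
        apply isClosed_le _ continuous_const
        have := continuous_psi k L ξ0
        fun_prop
      apply closure_minimal _ hcl
      intro a ha
      exact hvx a (ball_subset_ball h3 ha.1) (h4 ha.1) ha.2.1 (hcc.le.trans ha.2.2)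
    have hx1A : x1 ∈ Up F K q ρ1 (F x1) := ⟨hx1b, hx1K, le_rfl⟩
    obtain ⟨q', h8, h9, h10⟩ := h.vertex hdim (q := q) (ρ := ρ1) (c := F x1) h4
      (O := ball ξ0 (min (δ * ρ1 / (8 * r)) (2 * L * r + 1 - ‖ξ0‖))) isOpen_ball
      (nonempty_ball.2 (lt_min (by positivity) (by linarith)))
      (by
        intro ξ hξ
        rw [mem_ball, dist_eq_norm] at hξ
        have h11 := lt_of_lt_of_le hξ (min_le_right _ _)
        have h12 := norm_sub_norm_le ξ ξ0
        linarith)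
      ⟨x1, hx1A⟩
      (by
        intro ξ hξ a ha hamax
        rw [mem_ball, dist_eq_norm] at hξ
        have hξ' := lt_of_lt_of_le hξ (min_le_left _ _)
        constructor
        · by_contra hab
          have h11 : ρ1 ≤ ‖a - q‖ := by
            rw [mem_ball, dist_eq_norm, not_lt] at hab
            exact hab
          have h12 := hA a ha
          have h13 : δ * ρ1 ≤ δ * ‖a - q‖ := by gcongr
          have h14 : ∀ y ∈ closedBall k r, |psi k L ξ y - psi k L ξ0 y| ≤ δ * ρ1 / 8 := by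
            intro y hy
            rw [psi_sub_psi]
            rw [mem_closedBall, dist_eq_norm] at hy
            calc |⟪ξ - ξ0, y - k⟫| ≤ ‖ξ - ξ0‖ * ‖y - k‖ := abs_real_inner_le_norm _ _
              _ ≤ δ * ρ1 / (8 * r) * r := by gcongr
              _ = δ * ρ1 / 8 := by field_simp
          have ha' : a ∈ closedBall k r :=
            closure_minimal (fun x hx => ball_subset_closedBall (h4 hx.1)) isClosed_closedBall ha
          have h15 := abs_le.1 (h14 a ha')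
          have h16 := abs_le.1 (h14 x1 (ball_subset_closedBall (h4 hx1b)))
          have h17 := hamax x1 (subset_closure hx1A)
          have h18 : 0 < δ * ρ1 := by positivity
          linarith [h15.1, h15.2, h16.1, h16.2]
        · rintro rfl
          exact hx1T (closure_mono (Up_mono h4) ha))
    exact ⟨q', h8, h9, ball_subset_ball h2 h10⟩

/-- The local maximum principle. -/
theorem Loc.false_of_top (h : Loc F K k r C L) (hdim : 2 ≤ finrank ℝ E) {T : Set ℝ}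
    (t1 : ∀ x ∈ ball k r, x ∉ K → F x ∈ T) (t2 : ∀ c ∈ T, k ∈ closure (Up F K k r c)) :
    False := by
  have h7 : Cardinal.mk (ℕ → Bool) = Cardinal.continuum := by
    simp
  obtain ⟨q0, hq0, -, -⟩ := h.top hdim h.r0 Subset.rfl t1 t2
  have h1 : Preperfect {q | Vtx F K k r L q} := by
    intro q hq
    rw [accPt_iff_nhds]
    intro W hW
    obtain ⟨ρ, hρ, hρW⟩ := Metric.mem_nhds_iff.1 hW
    obtain ⟨q', h2, h3, h4⟩ := h.accum hdim hq hρ
    exact ⟨q', ⟨hρW h4, h2⟩, h3⟩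
  have h2 : Perfect (closure {q | Vtx F K k r L q}) := h1.perfect_closure
  have h3 : closure {q | Vtx F K k r L q} ⊆ K :=
    closure_minimal (fun q hq => hq.1) h.closed
  obtain ⟨f, hf1, -, hf3⟩ := h2.exists_nat_bool_injection ⟨q0, subset_closure hq0⟩
  have h4 : (range f).Countable := h.countable.mono (hf1.trans h3)
  have h5 : Countable (ℕ → Bool) := by
    rw [← Set.countable_univ_iff]
    exact Set.countable_of_injective_of_countable_image hf3.injOn (by rwa [image_univ])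
  have h6 := Cardinal.mk_le_aleph0_iff.2 h5
  rw [h7] at h6
  exact absurd h6 (not_le.2 Cardinal.aleph0_lt_continuum)

end Pool.Agent.KS6_64.Cvx
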