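import Pool.Graph.R_seed8.H234R3.SMP
import Pool.Graph.R_seed8.H234R3.CvxDefs
import Pool.Graph.R_pool_sql_team_seeded_3997aac3.Q183.Games.Bernstein
import Pool.Agent.KS6_64.Cvx.Local

/-!
No closed manifold of dimension at least two carries a strictly convex function outside of a
countable closed set; Bernstein subsets of closed manifolds.
-/

set_option autoImplicit false
set_option linter.unusedSectionVars false

open scoped Manifold ContDiff Topology
open Module Set Filter Metric
open Pool.Agent.H234R3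
open Pool.Agent.H839R2.Geo (coordMetric)

namespace Pool.Agent.KS6_64.Cvx

section Defs

variable {E : Type*} [NormedAddCommGroup E] [NormedSpace ℝ E]
  {H : Type*} [TopologicalSpace H] {J : ModelWithCorners ℝ E H}
  {N : Type*} [TopologicalSpace N] [ChartedSpace H N] [IsManifold J ∞ N]

/-- The function `f` is strictly convex on the open subset `U` of `(N, h)`: it is `C^2` on `U` and
its Hessian, written in any chart of the atlas, is positive definite at every point of `U`. -/
def StrictlyConvexOn (h : RMetric J N) (U : Set N) (f : N → ℝ) : Prop :=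
  ContMDiffOn J 𝓘(ℝ, ℝ) 2 f U ∧
    ∀ (p : N) (y : E), y ∈ (extChartAt J p).target → (extChartAt J p).symm y ∈ U →
      HessPosAt (chartCoeff h p) (funInChart J f p) y

/-- Property (i) of the subset `V` of `(N, h)`: there is a strictly convex function on an open
neighbourhood of `V`. -/
def PropOne (h : RMetric J N) (V : Set N) : Prop :=
  ∃ (U : Set N) (f : N → ℝ), IsOpen U ∧ V ⊆ U ∧ StrictlyConvexOn h U f

end Defs

section Mfd

variable {E : Type*} [NormedAddCommGroup E] [InnerProductSpace ℝ E] [FiniteDimensional ℝ E]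
  {N : Type*} [TopologicalSpace N] [T2Space N] [CompactSpace N]
  [ChartedSpace E N] [IsManifold 𝓘(ℝ, E) ∞ N]

lemma contDiffAt_two {f : N → ℝ} {p : N} {y : E}
    (hy : y ∈ (extChartAt 𝓘(ℝ, E) p).target)
    (hf : ContMDiffAt 𝓘(ℝ, E) 𝓘(ℝ, ℝ) 2 f ((extChartAt 𝓘(ℝ, E) p).symm y)) :
    ContDiffAt ℝ 2 (funInChart 𝓘(ℝ, E) f p) y := by
  rw [← contMDiffAt_iff_contDiffAt]
  exact hf.comp y ((contMDiffAt_symm p hy).of_le (by exact two_le_infty'))

/-- The sizes of the Christoffel symbols are bounded near the centre of a chart. -/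
lemma exists_christoffel_bound (h : RMetric 𝓘(ℝ, E) N) (p : N) :
    ∃ C : ℝ, 0 ≤ C ∧ ∀ᶠ y in 𝓝 (extChartAt 𝓘(ℝ, E) p p), ∀ Γ, IsChristoffel (chartCoeff h p) y Γ →
      ∀ v, ‖Γ v v‖ ≤ C * ‖v‖ ^ 2 := by
  obtain ⟨lam, Lam, C, hlam, -, hC, hbd⟩ := exists_bd
    ((contDiffAt_coordMetric h p).of_le (by exact_mod_cast le_top))
    (fun v hv => coordMetric_pos h p (mem_extChartAt_target p) hv)
  refine ⟨C / lam, by positivity, ?_⟩
  filter_upwards [hbd] with y hy Γ hΓ v
  have h1 := hy.low (Γ v v)
  have h2 := hΓ v v (Γ v v)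
  have h3 := hy.kz v v (Γ v v)
  have h4 : chartCoeff h p y (Γ v v) (Γ v v) = coordMetric 𝓘(ℝ, E) h p y (Γ v v) (Γ v v) := rfl
  have h5 : koszul (chartCoeff h p) y v v (Γ v v) =
    koszul (fun z a b => coordMetric 𝓘(ℝ, E) h p z a b) y v v (Γ v v) := rfl
  rw [← h5, ← h2, h4] at h3
  have h6 := (abs_le.1 h3).2
  have h7 : lam * ‖Γ v v‖ ^ 2 ≤ C * ‖v‖ * ‖v‖ * ‖Γ v v‖ := h1.trans h6
  rcases eq_or_lt_of_le (norm_nonneg (Γ v v)) with h8 | h8
  · rw [← h8]
    positivity
  · have h9 : lam * ‖Γ v v‖ ≤ C * ‖v‖ * ‖v‖ := by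
      have : (lam * ‖Γ v v‖) * ‖Γ v v‖ ≤ (C * ‖v‖ * ‖v‖) * ‖Γ v v‖ := by nlinarith
      exact le_of_mul_le_mul_right this h8
    rw [div_mul_eq_mul_div, le_div_iff₀ hlam]
    nlinarith

/-- The maximum principle with a countable closed exceptional set. -/
theorem not_strictlyConvexOn [Nonempty N] (hn : 2 ≤ finrank ℝ E) (h : RMetric 𝓘(ℝ, E) N) {K : Set N}
    (hK : IsClosed K) (hKc : K.Countable) {f : N → ℝ} (hf : StrictlyConvexOn h Kᶜ f) : False := by
  have hnt : Nontrivial E := by
    apply Module.finrank_pos_iff (R := ℝ).1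
    omega
  -- countable sets in charts
  have hcount : ∀ (p : N) (S : Set (E)), S ⊆ (extChartAt 𝓘(ℝ, E) p).target →
      (∀ y ∈ S, (extChartAt 𝓘(ℝ, E) p).symm y ∈ K) → S.Countable := by
    intro p S hS hS'
    apply Set.countable_of_injective_of_countable_image
      ((extChartAt 𝓘(ℝ, E) p).symm.injOn.mono hS)
    apply hKc.mono
    rintro _ ⟨y, hy, rfl⟩
    exact hS' y hy
  have hU : (Kᶜ : Set N).Nonempty := by
    obtain ⟨p⟩ := (inferInstance : Nonempty N)
    have h1 := hcount p {y | y ∈ (extChartAt 𝓘(ℝ, E) p).target ∧ (extChartAt 𝓘(ℝ, E) p).symm y ∈ K}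
      (fun y hy => hy.1) (fun y hy => hy.2)
    obtain ⟨y, hy1, hy2⟩ := (h1.dense_compl ℝ).inter_open_nonempty _
      (isOpen_extChartAt_target (I := 𝓘(ℝ, E)) p) ⟨_, mem_extChartAt_target (I := 𝓘(ℝ, E)) p⟩
    exact ⟨(extChartAt 𝓘(ℝ, E) p).symm y, fun hyK => hy2 ⟨hy1, hyK⟩⟩
  obtain ⟨u0, hu0⟩ := hU
  let T : Set ℝ := {c | ∃ x ∈ Kᶜ, c ≤ f x}
  let S : T → Set N := fun c => closure {x | x ∈ Kᶜ ∧ c.1 ≤ f x}
  have hTn : Nonempty T := ⟨⟨f u0, u0, hu0, le_rfl⟩⟩
  obtain ⟨p, hp⟩ : (⋂ c : T, S c).Nonempty := by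
    apply IsCompact.nonempty_iInter_of_directed_nonempty_isCompact_isClosed
    · intro c d
      rcases le_total c.1 d.1 with hcd | hcd
      · exact ⟨d, closure_mono fun x hx => ⟨hx.1, hcd.trans hx.2⟩, Subset.rfl⟩
      · exact ⟨c, Subset.rfl, closure_mono fun x hx => ⟨hx.1, hcd.trans hx.2⟩⟩
    · intro c
      obtain ⟨x, hx, hcx⟩ := c.2
      exact ⟨x, subset_closure ⟨hx, hcx⟩⟩
    · exact fun c => isClosed_closure.isCompact
    · exact fun c => isClosed_closure
  rw [mem_iInter] at hp
  -- the chart at `p`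
  set φ := extChartAt 𝓘(ℝ, E) p with hφ
  set k := φ p with hk
  obtain ⟨C, hC, hCb⟩ := exists_christoffel_bound h p
  have hev : ∀ᶠ y in 𝓝 k, (∀ Γ, IsChristoffel (chartCoeff h p) y Γ →
      ∀ v, ‖Γ v v‖ ≤ C * ‖v‖ ^ 2) ∧ y ∈ φ.target :=
    hCb.and (extChartAt_target_mem_nhds p)
  obtain ⟨r0, hr0, hball⟩ := Metric.nhds_basis_closedBall.mem_iff.1 hev
  set r := min r0 (1 / (4 * (C + 1))) with hr
  have hrpos : 0 < r := lt_min hr0 (by positivity)
  have hcb : closedBall k r ⊆ closedBall k r0 := closedBall_subset_closedBall (min_le_left _ _)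
  have htar : closedBall k r ⊆ φ.target := fun y hy => (hball (hcb hy)).2
  set K' : Set (E) := closedBall k r ∩ φ.symm ⁻¹' K with hK'
  have hcr : 4 * (C * r) ≤ 1 := by
    have h1 : r ≤ 1 / (4 * (C + 1)) := min_le_right _ _
    rw [le_div_iff₀ (by positivity)] at h1
    nlinarith
  have hloc : Loc (funInChart 𝓘(ℝ, E) f p) K' k r C (C + 1) := by
    refine ⟨hrpos, hC, hcr, by linarith, ?_, ?_, ?_, ?_⟩
    · exact ((continuousOn_extChartAt_symm p).mono htar).preimage_isClosed_of_isClosed
        isClosed_closedBall hK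
    · exact hcount p K' (fun y hy => htar hy.1) (fun y hy => hy.2)
    · intro x hx hxK
      have hx' := htar (ball_subset_closedBall hx)
      have hxK' : φ.symm x ∈ Kᶜ := fun h1 => hxK ⟨ball_subset_closedBall hx, h1⟩
      exact contDiffAt_two hx' ((hf.1 _ hxK').contMDiffAt (hK.isOpen_compl.mem_nhds hxK'))
    · intro x hx hxK
      have hx' := htar (ball_subset_closedBall hx)
      have hxK' : φ.symm x ∈ Kᶜ := fun h1 => hxK ⟨ball_subset_closedBall hx, h1⟩
      obtain ⟨Γ, hΓ, hpos⟩ := hf.2 p x hx' hxK'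
      exact ⟨fun v => Γ v v, (hball (hcb (ball_subset_closedBall hx))).1 Γ hΓ, hpos⟩
  refine hloc.false_of_top hn (T := T) ?_ ?_
  · intro x hx hxK
    have hxK' : φ.symm x ∈ Kᶜ := fun h1 => hxK ⟨ball_subset_closedBall hx, h1⟩
    exact ⟨φ.symm x, hxK', le_rfl⟩
  · intro c hc
    have h1 : p ∈ closure {x | x ∈ Kᶜ ∧ c ≤ f x} := hp ⟨c, hc⟩
    rw [mem_closure_iff_nhds] at h1 ⊢
    intro W hW
    have h2 : ∀ᶠ x in 𝓝 p, φ x ∈ W ∩ ball k r :=
      (continuousAt_extChartAt (I := 𝓘(ℝ, E)) p).eventually (inter_mem hW (ball_mem_nhds k hrpos))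
    obtain ⟨x, ⟨hx1, hx2⟩, hx3, hx4⟩ := h1 _ (h2.and (extChartAt_source_mem_nhds (I := 𝓘(ℝ, E)) p))
    have h3 : φ.symm (φ x) = x := φ.left_inv hx2
    refine ⟨φ x, hx1.1, hx1.2, ?_, ?_⟩
    · intro h4
      apply hx3
      have h5 : φ.symm (φ x) ∈ K := h4.2
      rwa [h3] at h5
    · have h5 : funInChart 𝓘(ℝ, E) f p (φ x) = f x := by
        rw [funInChart, Function.comp_apply]
        exact congrArg f h3
      rw [h5]
      exact hx4

/-- A subset whose complement contains no uncountable closed set has no strictly convex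
function. -/
theorem not_propOne [Nonempty N] (hn : 2 ≤ finrank ℝ E) (h : RMetric 𝓘(ℝ, E) N) {V : Set N}
    (hV : ∀ C : Set N, IsClosed C → Disjoint C V → C.Countable) : ¬ PropOne h V := by
  rintro ⟨U, f, hU, hVU, hf⟩
  refine not_strictlyConvexOn hn h hU.isClosed_compl (hV _ hU.isClosed_compl ?_)
    (f := f) (by rwa [compl_compl])
  exact disjoint_compl_left.mono_right hVU

end Mfd

section Bernstein

lemma mk_nat_bool : Cardinal.mk (ℕ → Bool) = Cardinal.continuum := by simp

lemma mk_closed_le (N : Type) [TopologicalSpace N] [SecondCountableTopology N] :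
    Cardinal.mk {C : Set N // IsClosed C} ≤ Cardinal.continuum := by
  let B := TopologicalSpace.countableBasis N
  have hB := TopologicalSpace.isBasis_countableBasis N
  have hBc : B.Countable := TopologicalSpace.countable_countableBasis N
  let g : {C : Set N // IsClosed C} → Set B := fun C => {s | (s : Set N) ⊆ C.1ᶜ}
  have hg : Function.Injective g := by
    intro C D hCD
    have key : ∀ C : {C : Set N // IsClosed C}, C.1ᶜ = ⋃₀ (Subtype.val '' (g C)) := by
      intro C
      have h1 := hB.open_eq_sUnion' C.2.isOpen_compl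
      rw [h1]
      congr 1
      ext s
      constructor
      · rintro ⟨h2, h3⟩
        exact ⟨⟨s, h2⟩, h3, rfl⟩
      · rintro ⟨⟨s', h2⟩, h3, rfl⟩
        exact ⟨h2, h3⟩
    apply Subtype.ext
    rw [← compl_inj_iff, key C, key D, hCD]
  have h1 := Cardinal.mk_le_of_injective hg
  refine h1.trans ?_
  rw [Cardinal.mk_set, ← Cardinal.two_power_aleph0]
  exact Cardinal.power_le_power_left two_ne_zero (Cardinal.mk_le_aleph0_iff.2 hBc.to_subtype)

/-- An uncountable closed subset of a compact metrizable space has the cardinality of the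
continuum. -/
lemma continuum_le_of_compact {N : Type} [TopologicalSpace N] [T2Space N] [CompactSpace N]
    [SecondCountableTopology N] {C : Set N} (hC : IsClosed C) (hCc : ¬ C.Countable) :
    Cardinal.continuum ≤ Cardinal.mk C := by
  let _ : MetricSpace N := TopologicalSpace.metrizableSpaceMetric N
  have hpol : PolishSpace N := inferInstance
  obtain ⟨f, hf1, -, hf3⟩ := hC.exists_nat_bool_injection_of_not_countable hCc
  have h1 : Cardinal.mk (ℕ → Bool) ≤ Cardinal.mk C :=
    Cardinal.mk_le_of_injective (f := fun x => (⟨f x, hf1 ⟨x, rfl⟩⟩ : C))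
      (fun x y hxy => hf3 (congrArg Subtype.val hxy))
  rwa [mk_nat_bool] at h1

/-- An uncountable closed subset of a sigma-compact, second countable Hausdorff space has the
cardinality of the continuum. -/
lemma continuum_le {N : Type} [TopologicalSpace N] [T2Space N] [SigmaCompactSpace N]
    [SecondCountableTopology N] {C : Set N} (hC : IsClosed C) (hCc : ¬ C.Countable) :
    Cardinal.continuum ≤ Cardinal.mk C := by
  obtain ⟨i, hi⟩ : ∃ i, ¬ (C ∩ compactCovering N i).Countable := by
    by_contra hcon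
    push Not at hcon
    apply hCc
    have h1 : C = ⋃ i, C ∩ compactCovering N i := by
      rw [← inter_iUnion, iUnion_compactCovering, inter_univ]
    rw [h1]
    exact countable_iUnion hcon
  have hK : IsCompact (compactCovering N i) := isCompact_compactCovering N i
  have hcs : CompactSpace (compactCovering N i) := isCompact_iff_compactSpace.1 hK
  have h2 : ¬ (Subtype.val ⁻¹' C : Set (compactCovering N i)).Countable := by
    intro h3
    apply hi
    have h4 := h3.image (Subtype.val : compactCovering N i → N)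
    rwa [Subtype.image_preimage_coe, inter_comm] at h4
  refine (continuum_le_of_compact (hC.preimage continuous_subtype_val) h2).trans ?_
  exact Cardinal.mk_le_of_injective
    (f := fun x : (Subtype.val ⁻¹' C : Set (compactCovering N i)) => (⟨x.1.1, x.2⟩ : C))
    (fun x y hxy => Subtype.ext (Subtype.ext (by simpa using hxy)))

variable (N : Type) [TopologicalSpace N] [T2Space N] [SigmaCompactSpace N]
  [SecondCountableTopology N]

/-- A Bernstein set: the uncountable closed sets meet the set and its complement. -/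
theorem exists_bernstein : ∃ V : Set N, ∀ C : Set N, IsClosed C → ¬ C.Countable →
    (∃ y ∈ C, y ∈ V) ∧ (∃ y ∈ C, y ∉ V) := by
  let ι := {C : Set N // IsClosed C ∧ ¬ C.Countable}
  have hι : Cardinal.mk ι ≤ Cardinal.continuum := by
    refine le_trans ?_ (mk_closed_le N)
    exact Cardinal.mk_le_of_injective (f := fun C : ι => (⟨C.1, C.2.1⟩ : {C : Set N // IsClosed C}))
      (fun C D hCD => Subtype.ext (by simpa using hCD))
  have hQ : ∀ i : ι, Cardinal.continuum ≤ Cardinal.mk (i.1 : Set N) := fun i =>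
    continuum_le i.2.1 i.2.2
  obtain ⟨V, hV⟩ := Pool.Agent.Q183.Games.exists_bernstein Cardinal.aleph0_le_continuum
    (fun i : ι => i.1) hι hQ
  exact ⟨V, fun C hC hCc => hV ⟨C, hC, hCc⟩⟩

variable {N}

/-- A nonconstant continuous map from a connected compact space to a Hausdorff space which is
second countable has uncountable range. -/
lemma const_of_connected {V : Set N} (hV : ∀ C : Set N, IsClosed C → C ⊆ V → C.Countable)
    {X : Type*} [TopologicalSpace X] [CompactSpace X] [ConnectedSpace X] {φ : X → N}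
    (hφ : Continuous φ) (hφV : ∀ x, φ x ∈ V) : ∃ p : N, ∀ x, φ x = p := by
  have hR : IsCompact (range φ) := isCompact_range hφ
  have hcs : CompactSpace (range φ) := isCompact_iff_compactSpace.1 hR
  let _ : MetricSpace (range φ) := TopologicalSpace.metrizableSpaceMetric (range φ)
  obtain ⟨x0⟩ := (inferInstance : Nonempty X)
  refine ⟨φ x0, fun x => ?_⟩
  by_contra hne
  have h1 : (range φ).Countable := hV _ hR.isClosed (by rintro _ ⟨y, rfl⟩; exact hφV y)
  have h1' : Countable (range φ) := h1.to_subtype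
  let g : X → range φ := rangeFactorization φ
  have hg : Continuous g := hφ.rangeFactorization
  have h2 : (range fun z : X => dist (g z) (g x0)).Countable := by
    have : (range fun z : X => dist (g z) (g x0)) = (fun z => dist z (g x0)) '' range g := by
      rw [← range_comp]
      rfl
    rw [this]
    exact (Set.to_countable _).image _
  have h3 : IsPreconnected (range fun z : X => dist (g z) (g x0)) :=
    isPreconnected_range (hg.dist continuous_const)
  have h4 : Icc 0 (dist (g x) (g x0)) ⊆ range fun z : X => dist (g z) (g x0) :=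
    h3.Icc_subset ⟨x0, by simp⟩ ⟨x, rfl⟩
  have h5 : 0 < dist (g x) (g x0) := by
    apply dist_pos.2
    intro h
    exact hne (congrArg Subtype.val h)
  have h6 := (h2.mono h4).le_aleph0
  rw [Cardinal.mk_Icc_real h5] at h6
  exact absurd h6 (not_le.2 Cardinal.aleph0_lt_continuum)

end Bernstein

end Pool.Agent.KS6_64.Cvx
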